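import Pool.Agent.MP_4f0cf1_nt.ClassNumber

set_option autoImplicit false
open NumberField

namespace Pool.Agent.Results.MP_4f0cf1_nt.LegendreDetFormula

open Pool.Agent.MP_4f0cf1_nt

/-- The matrix `[((j+k)/p) + ((j-k)/p) + (jk/p)]` for `1 ≤ j, k ≤ (p-1)/2`
(the index `i : Fin ((p-1)/2)` stands for the integer `i + 1`). -/
def M (p : ℕ) [Fact p.Prime] : Matrix (Fin ((p - 1) / 2)) (Fin ((p - 1) / 2)) ℤ :=
  Matrix.of fun a b =>
    let j : ℤ := (a : ℕ) + 1
    let k : ℤ := (b : ℕ) + 1
    legendreSym p (j + k) + legendreSym p (j - k) + legendreSym p (j * k)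

/-- The imaginary quadratic field `ℚ(√-p)`, as a subfield of `ℂ`. -/
noncomputable abbrev QSqrtNeg (p : ℕ) : IntermediateField ℚ ℂ :=
  IntermediateField.adjoin ℚ {Complex.I * (Real.sqrt p : ℂ)}

lemma gen_sq (p : ℕ) : (Complex.I * (Real.sqrt p : ℂ)) ^ 2 = -(p : ℂ) := by
  have h : ((Real.sqrt p : ℝ) : ℂ) ^ 2 = p := by
    have := Real.sq_sqrt (Nat.cast_nonneg (α := ℝ) p)
    exact_mod_cast this
  rw [mul_pow, Complex.I_sq, h]
  ring

lemma gen_integral (p : ℕ) : IsIntegral ℚ (Complex.I * (Real.sqrt p : ℂ)) := by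
  refine ⟨Polynomial.X ^ 2 + Polynomial.C (p : ℚ), ?_, ?_⟩
  · exact Polynomial.monic_X_pow_add_C _ (by norm_num)
  · simp [gen_sq]

instance numberField_QSqrtNeg (p : ℕ) : NumberField (QSqrtNeg p) where
  to_charZero := inferInstance
  to_finiteDimensional := IntermediateField.adjoin.finiteDimensional (gen_integral p)

/-- The class number of `ℚ(√-p)`. -/
noncomputable def h (p : ℕ) : ℕ := classNumber (QSqrtNeg p)

lemma qdata (p : ℕ) (hp : p.Prime) (hp3 : 3 < p) (h4 : p % 4 = 3) :
    ∃ α : QSqrtNeg p, QData p (QSqrtNeg p) α := by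
  set g : ℂ := Complex.I * (Real.sqrt p : ℂ) with hg
  have hmem : g ∈ QSqrtNeg p := IntermediateField.mem_adjoin_simple_self ℚ g
  refine ⟨⟨g, hmem⟩, ⟨hp, h4, hp3, ?_, ?_⟩⟩
  · have h1 := IntermediateField.adjoin.finrank (gen_integral p)
    have h2 : minpoly ℚ g = Polynomial.X ^ 2 + Polynomial.C (p : ℚ) := by
      symm
      have hmon : (Polynomial.X ^ 2 + Polynomial.C (p : ℚ)).Monic :=
        Polynomial.monic_X_pow_add_C _ (by norm_num)
      apply minpoly.eq_of_irreducible_of_monic
      · have hdeg : (Polynomial.X ^ 2 + Polynomial.C (p : ℚ)).natDegree = 2 :=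
          Polynomial.natDegree_X_pow_add_C
        rw [hmon.irreducible_iff_roots_eq_zero_of_degree_le_three (by rw [hdeg]) (by rw [hdeg]; norm_num)]
        rw [Multiset.eq_zero_iff_forall_notMem]
        intro x hx
        rw [Polynomial.mem_roots hmon.ne_zero, Polynomial.IsRoot.def] at hx
        simp only [Polynomial.eval_add, Polynomial.eval_pow, Polynomial.eval_X,
          Polynomial.eval_C] at hx
        have : (0 : ℚ) < p := by exact_mod_cast hp.pos
        nlinarith [sq_nonneg x]
      · simp only [map_add, map_pow, Polynomial.aeval_X, Polynomial.aeval_C]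
        rw [hg, gen_sq]
        simp
      · exact hmon
    rw [h2, Polynomial.natDegree_X_pow_add_C] at h1
    exact h1
  · apply Subtype.ext
    push_cast
    exact gen_sq p

/-- **Evaluation of the determinant.** -/
theorem result (p : ℕ) [Fact p.Prime] (hp : 3 < p) :
    (p % 4 = 1 → (M p).det = legendreSym p 2 * (p : ℤ) ^ ((p - 5) / 4)) ∧
    (p % 4 = 3 → Odd (h p) ∧
      (M p).det = (-1) ^ ((h p - 1) / 2) * (1 - (2 - legendreSym p 2) * (h p : ℤ)) *
        (p : ℤ) ^ ((p - 3) / 4)) := by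
  have hprime : p.Prime := Fact.out
  have hodd : p % 2 = 1 := (hprime.eq_two_or_odd).resolve_left (by omega)
  have hpn : p = 2 * ((p - 1) / 2) + 1 := by omega
  have hM : M p = Mmat p ((p - 1) / 2) := by
    ext a b
    simp only [M, Mmat, Matrix.of_apply, legendreSym, uu]
    push_cast
    rfl
  have h2 : legendreSym p 2 = chi p 2 := by
    unfold legendreSym
    norm_cast
  constructor
  · intro h4
    rw [hM, det_even hpn h4, h2]
  · intro h4
    obtain ⟨α, D⟩ := qdata p hprime hp h4
    have hS := class_number_formula D hpn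
    refine ⟨?_, ?_⟩
    · obtain ⟨ν, hν, _, h5⟩ := XX_nu (p := p) hpn
      rw [hS] at h5
      have h6 : Odd ((2 - chi p 2) * (classNumber (QSqrtNeg p) : ℤ)) := by
        rw [h5, Int.odd_iff]
        omega
      have h7 := (Int.odd_mul.mp h6).2
      exact_mod_cast h7
    · rw [hM, det_odd hpn h4 _ hS, h2]
      rfl

end Pool.Agent.Results.MP_4f0cf1_nt.LegendreDetFormula
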